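import Mathlib
import Pool.Agent.Results.MP_b1d502_nt.NotFinDet

/-!
# MP_b0d7fb_nt: the diagonal point is a convex combination of other upper-boundary points

For `k = 3` the point `D_3 = (1/4, 1/4, 1/4)` lies in `MLPS_3` and in the convex hull of the
points of the upper boundary of `MLPS_3` other than `D_3`.
-/

namespace Pool.Agent.Results.MP_b0d7fb_nt.DiagonalHull

open Pool.Agent.Results.MP_b1d502_nt.NotFinDet (distInt distInt_nonneg distInt_le le_distInt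
  distInt_eq_norm continuous_distInt distInt_add_int distInt_neg distInt_of_mem distInt_add_le
  two_runners)

/-- `MLRC(d)`: for all pairwise distinct positive integer speeds there is a time `t` at which the
`i`-th runner has distance at least `d i` to the nearest integer. -/
def MLRC {k : ℕ} (d : Fin k → ℝ) : Prop :=
  ∀ s : Fin k → ℕ, (∀ i, 0 < s i) → Function.Injective s →
    ∃ t : ℝ, ∀ i, d i ≤ distInt ((s i : ℝ) * t)

/-- The mixed lonely runner parameter space. -/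
def MLPS (k : ℕ) : Set (Fin k → ℝ) := {d | (∀ i, 0 < d i ∧ d i ≤ 1 / 2) ∧ MLRC d}

/-- The upper boundary of `MLPS_k`. -/
def upperBoundary (k : ℕ) : Set (Fin k → ℝ) :=
  {d | d ∈ MLPS k ∧ ∀ e ∈ MLPS k, (∀ i, d i ≤ e i) → e = d}

/-- The diagonal point `D_k = (1/(k+1), …, 1/(k+1))`. -/
noncomputable def diag (k : ℕ) : Fin k → ℝ := fun _ => 1 / (k + 1)

/-! ### Elementary facts -/

lemma distInt_ge_of (x : ℝ) (N : ℤ) (c : ℝ) (h1 : c ≤ x) (h2 : x ≤ 1 - c) :
    c ≤ distInt (x + N) := by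
  rw [distInt_add_int]
  apply le_distInt
  intro m
  rcases le_or_gt m 0 with h | h
  · have : (m : ℝ) ≤ 0 := by exact_mod_cast h
    have h3 : x - m ≤ |x - m| := le_abs_self _
    linarith
  · have : (1 : ℝ) ≤ m := by exact_mod_cast h
    have h3 : -(x - m) ≤ |x - m| := neg_le_abs _
    linarith

lemma distInt_nat_eq_int (x : ℝ) (n : ℤ) : distInt (n * x) = distInt ((n.natAbs : ℝ) * x) := by
  rcases Int.natAbs_eq n with h | h
  · rw [h]; simp
  · rw [h]
    push_cast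
    simp only [Int.natAbs_neg, Int.natAbs_abs]
    rw [neg_mul, distInt_neg]
    congr 1
    rw [Nat.cast_natAbs]
    push_cast
    simp

/-- For positive integers `p, q` some `σ` has `‖pσ‖ ≤ 1/4` and `‖qσ‖ ≥ 1/4`. -/
lemma tame (p q : ℕ) (hp : 0 < p) (hq : 0 < q) :
    ∃ σ : ℝ, distInt ((p : ℝ) * σ) ≤ 1 / 4 ∧ 1 / 4 ≤ distInt ((q : ℝ) * σ) := by
  have main : ∀ p q : ℕ, 0 < p → 0 < q → Nat.Coprime p q →
      ∃ σ : ℝ, distInt ((p : ℝ) * σ) ≤ 1 / 4 ∧ 1 / 4 ≤ distInt ((q : ℝ) * σ) := by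
    intro p q hp hq hco
    have hpR : (0 : ℝ) < p := by exact_mod_cast hp
    have hqR : (1 : ℝ) ≤ q := by exact_mod_cast hq
    rcases Nat.lt_or_ge 1 p with h1 | h1
    · obtain ⟨w, hw⟩ : ∃ w : ℕ, w = p / 2 := ⟨_, rfl⟩
      obtain ⟨j, m, hjm⟩ : ∃ j m : ℤ, j * q = w + m * p := by
        have hbez := Nat.gcd_eq_gcd_ab p q
        rw [hco.gcd_eq_one] at hbez
        push_cast at hbez
        refine ⟨(w : ℤ) * Nat.gcdB p q, -((w : ℤ) * Nat.gcdA p q), ?_⟩
        linear_combination (-(w : ℤ)) * hbez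
      refine ⟨j / p, ?_, ?_⟩
      · have h2 := distInt_le ((p : ℝ) * (j / p)) j
        have h3 : (p : ℝ) * (j / p) - j = 0 := by field_simp; ring
        rw [h3, abs_zero] at h2
        linarith
      · have hjmR : (j : ℝ) * q = (w : ℝ) + m * p := by exact_mod_cast hjm
        have h2 : (q : ℝ) * (j / p) = (w : ℝ) / p + (m : ℤ) := by
          field_simp
          linear_combination hjmR
        rw [h2]
        have h3 : p ≤ 4 * w := by omega
        have h3' : (p : ℝ) ≤ 4 * (w : ℝ) := by exact_mod_cast h3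
        have h4 : 2 * w ≤ p := by omega
        have h4' : 2 * (w : ℝ) ≤ (p : ℝ) := by exact_mod_cast h4
        apply distInt_ge_of
        · rw [le_div_iff₀ hpR]; linarith
        · rw [div_le_iff₀ hpR]; linarith
    · have hp1 : p = 1 := by omega
      subst hp1
      refine ⟨1 / (4 * q), ?_, ?_⟩
      · have h2 : ((1 : ℕ) : ℝ) * (1 / (4 * q)) ≤ 1 / 4 := by
          rw [Nat.cast_one, one_mul, div_le_div_iff₀ (by positivity) (by norm_num)]
          linarith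
        rw [distInt_of_mem (by positivity) (by linarith)]
        exact h2
      · have h2 : (q : ℝ) * (1 / (4 * q)) = 1 / 4 := by
          have : (q : ℝ) ≠ 0 := by positivity
          field_simp
        rw [h2, distInt_of_mem (by norm_num) (by norm_num)]
  set g := Nat.gcd p q with hg
  have hg0 : 0 < g := Nat.gcd_pos_of_pos_left q hp
  obtain ⟨p', hp'⟩ := Nat.gcd_dvd_left p q
  obtain ⟨q', hq'⟩ := Nat.gcd_dvd_right p q
  rw [← hg] at hp' hq'
  have hgR : (g : ℝ) ≠ 0 := by positivity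
  obtain ⟨σ, h1, h2⟩ := main p' q' (Nat.pos_of_ne_zero (by rintro rfl; omega))
    (Nat.pos_of_ne_zero (by rintro rfl; omega)) (by
      have h3 : g * Nat.gcd p' q' = g * 1 := by
        rw [← Nat.gcd_mul_left, ← hp', ← hq', mul_one]
      exact Nat.eq_of_mul_eq_mul_left hg0 h3)
  refine ⟨σ / g, ?_, ?_⟩
  · have h3 : (p : ℝ) * (σ / g) = p' * σ := by
      rw [hp']; push_cast; field_simp
    rw [h3]; exact h1
  · have h3 : (q : ℝ) * (σ / g) = q' * σ := by
      rw [hq']; push_cast; field_simp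
    rw [h3]; exact h2

/-- Integer version of `tame`. -/
lemma tameZ (p q : ℤ) (hp : p ≠ 0) (hq : q ≠ 0) :
    ∃ σ : ℝ, distInt ((p : ℝ) * σ) ≤ 1 / 4 ∧ 1 / 4 ≤ distInt ((q : ℝ) * σ) := by
  obtain ⟨σ, h1, h2⟩ := tame p.natAbs q.natAbs (Int.natAbs_pos.mpr hp) (Int.natAbs_pos.mpr hq)
  exact ⟨σ, by rw [distInt_nat_eq_int]; exact h1, by rw [distInt_nat_eq_int]; exact h2⟩

/-- Choosing the right translate: the points `a (τ + j / n)` hit every half-open arc of length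
`1 / n`. -/
lemma pick (n : ℕ) (hn : 0 < n) (a : ℤ) (h : IsCoprime a (n : ℤ)) (τ lo : ℝ) :
    ∃ j N : ℤ, lo ≤ (a : ℝ) * (τ + j / n) - N ∧ (a : ℝ) * (τ + j / n) - N < lo + 1 / n := by
  have hnR : (0 : ℝ) < n := by exact_mod_cast hn
  set L : ℤ := ⌈(n : ℝ) * (lo - a * τ)⌉ with hL
  have h1 : (n : ℝ) * (lo - a * τ) ≤ L := Int.le_ceil _
  have h2 : (L : ℝ) < (n : ℝ) * (lo - a * τ) + 1 := Int.ceil_lt_add_one _
  obtain ⟨u, v, huv⟩ := h
  refine ⟨L * u, -(L * v), ?_, ?_⟩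
  · have huvR : (u : ℝ) * a + v * n = 1 := by exact_mod_cast huv
    have h3 : (a : ℝ) * (τ + ((L * u : ℤ) : ℝ) / n) - ((-(L * v) : ℤ) : ℝ) = a * τ + L / n := by
      push_cast
      field_simp
      linear_combination (L : ℝ) * huvR
    rw [h3]
    have h4 : lo - a * τ ≤ L / n := by
      rw [le_div_iff₀ hnR]; linarith
    linarith
  · have huvR : (u : ℝ) * a + v * n = 1 := by exact_mod_cast huv
    have h3 : (a : ℝ) * (τ + ((L * u : ℤ) : ℝ) / n) - ((-(L * v) : ℤ) : ℝ) = a * τ + L / n := by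
      push_cast
      field_simp
      linear_combination (L : ℝ) * huvR
    rw [h3]
    have h4 : (L : ℝ) / n < lo - a * τ + 1 / n := by
      rw [div_lt_iff₀ hnR, add_mul, one_div_mul_cancel hnR.ne']; linarith
    linarith

/-- Feasibility of three runners. -/
def Good (da db dc : ℝ) (a b c : ℕ) : Prop :=
  ∃ t : ℝ, da ≤ distInt ((a : ℝ) * t) ∧ db ≤ distInt ((b : ℝ) * t) ∧ dc ≤ distInt ((c : ℝ) * t)

lemma good_of_coprime (da db dc : ℝ)
    (h : ∀ a b c : ℕ, 0 < a → 0 < b → 0 < c → a ≠ b → a ≠ c → b ≠ c →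
      Nat.gcd a (Nat.gcd b c) = 1 → Good da db dc a b c) :
    ∀ a b c : ℕ, 0 < a → 0 < b → 0 < c → a ≠ b → a ≠ c → b ≠ c → Good da db dc a b c := by
  intro a b c ha hb hc hab hac hbc
  set g := Nat.gcd a (Nat.gcd b c) with hg
  have hg0 : 0 < g := Nat.gcd_pos_of_pos_left _ ha
  have hgR : (g : ℝ) ≠ 0 := by positivity
  have hga : g ∣ a := Nat.gcd_dvd_left _ _
  have hgb : g ∣ b := (Nat.gcd_dvd_right _ _).trans (Nat.gcd_dvd_left _ _)
  have hgc : g ∣ c := (Nat.gcd_dvd_right _ _).trans (Nat.gcd_dvd_right _ _)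
  obtain ⟨a', ha'⟩ := hga
  obtain ⟨b', hb'⟩ := hgb
  obtain ⟨c', hc'⟩ := hgc
  have hco : Nat.gcd a' (Nat.gcd b' c') = 1 := by
    have h3 : g * Nat.gcd a' (Nat.gcd b' c') = g * 1 := by
      rw [← Nat.gcd_mul_left, ← Nat.gcd_mul_left, ← ha', ← hb', ← hc', mul_one]
    exact Nat.eq_of_mul_eq_mul_left hg0 h3
  obtain ⟨t, h1, h2, h3⟩ := h a' b' c' (Nat.pos_of_ne_zero (by rintro rfl; omega))
    (Nat.pos_of_ne_zero (by rintro rfl; omega)) (Nat.pos_of_ne_zero (by rintro rfl; omega))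
    (by rintro rfl; exact hab (by rw [ha', hb'])) (by rintro rfl; exact hac (by rw [ha', hc']))
    (by rintro rfl; exact hbc (by rw [hb', hc'])) hco
  refine ⟨t / g, ?_, ?_, ?_⟩
  · have h4 : (a : ℝ) * (t / g) = a' * t := by
      conv_lhs => rw [ha']
      push_cast; field_simp
    rw [h4]; exact h1
  · have h4 : (b : ℝ) * (t / g) = b' * t := by
      conv_lhs => rw [hb']
      push_cast; field_simp
    rw [h4]; exact h2
  · have h4 : (c : ℝ) * (t / g) = c' * t := by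
      conv_lhs => rw [hc']
      push_cast; field_simp
    rw [h4]; exact h3

/-- The shifting argument common to both hard cases: the speeds are `a`, `c` and `n m`, where
`± c = a + n e`. -/
lemma hard (n : ℕ) (hn : 0 < n) (a c m e ε : ℤ) (hco : IsCoprime a (n : ℤ))
    (hε : ε = 1 ∨ ε = -1) (hc : ε * c = a + n * e) (he : e ≠ 0) (hm : m ≠ 0)
    (da dc lo1 lo2 : ℝ) (h1 : da ≤ lo1) (h2 : lo1 + 1 / n ≤ 1 - da) (h3 : dc ≤ lo1 - 1 / 4)
    (h4 : lo1 + 1 / n ≤ 1 - dc) (h5 : da ≤ lo2) (h6 : lo2 + 1 / n ≤ 1 - da) (h7 : dc ≤ lo2)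
    (h8 : lo2 + 1 / n + 1 / 4 ≤ 1 - dc) :
    ∃ t : ℝ, da ≤ distInt ((a : ℝ) * t) ∧ dc ≤ distInt ((c : ℝ) * t) ∧
      1 / 4 ≤ distInt (((n * m : ℤ) : ℝ) * t) := by
  have hnR : (0 : ℝ) < n := by exact_mod_cast hn
  obtain ⟨σ, hσ1, hσ2⟩ := tameZ e m he hm
  obtain ⟨r, v, hv, hv1⟩ : ∃ (r : ℤ) (v : ℝ), (e : ℝ) * σ = v + r ∧ |v| ≤ 1 / 4 :=
    ⟨round ((e : ℝ) * σ), e * σ - round ((e : ℝ) * σ), by ring, hσ1⟩
  rw [abs_le] at hv1
  obtain ⟨lo, hlo1, hlo2, hlo3, hlo4⟩ : ∃ lo : ℝ, da ≤ lo ∧ lo + 1 / n ≤ 1 - da ∧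
      dc ≤ lo + v ∧ lo + 1 / n + v ≤ 1 - dc := by
    rcases le_total v 0 with hv0 | hv0
    · exact ⟨lo1, h1, h2, by linarith, by linarith⟩
    · exact ⟨lo2, h5, h6, by linarith, by linarith⟩
  obtain ⟨j, N, hjN1, hjN2⟩ := pick n hn a hco (σ / n) lo
  have hcR : (ε : ℝ) * c = a + n * e := by exact_mod_cast hc
  refine ⟨σ / n + j / n, ?_, ?_, ?_⟩
  · have h9 : (a : ℝ) * (σ / n + j / n) = ((a : ℝ) * (σ / n + j / n) - N) + N := by ring
    rw [h9]
    exact distInt_ge_of _ _ _ (by linarith) (by linarith)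
  · have h9 : distInt ((c : ℝ) * (σ / n + j / n)) =
        distInt (((a : ℝ) * (σ / n + j / n) - N + v) + ((N + r + e * j : ℤ) : ℝ)) := by
      have h10 : ((a : ℝ) * (σ / n + j / n) - N + v) + ((N + r + e * j : ℤ) : ℝ) =
          (ε : ℝ) * ((c : ℝ) * (σ / n + j / n)) := by
        push_cast
        rw [← mul_assoc, hcR]
        have h11 : (a + (n : ℝ) * e) * (σ / n + j / n) = a * (σ / n + j / n) + e * σ + e * j := by
          field_simp
          ring
        rw [h11, hv]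
        ring
      rw [h10]
      rcases hε with rfl | rfl
      · simp
      · rw [Int.cast_neg, Int.cast_one, neg_one_mul, distInt_neg]
    rw [h9]
    exact distInt_ge_of _ _ _ (by linarith) (by linarith)
  · have h9 : ((n * m : ℤ) : ℝ) * (σ / n + j / n) = m * σ + ((m * j : ℤ) : ℝ) := by
      push_cast
      field_simp
    rw [h9, distInt_add_int]
    exact hσ2

/-- Reading off the position of `s (τ + j / 5)` from a residue modulo `5`. -/
lemma win5 (s : ℤ) (τ : ℝ) (j : ℤ) :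
    ∃ (x : ℝ) (N : ℤ), (s : ℝ) * (τ + j / 5) = x + N ∧
      (((⌊5 * ((s : ℝ) * τ)⌋ + s * j) % 5 : ℤ) : ℝ) / 5 ≤ x ∧
      x < ((((⌊5 * ((s : ℝ) * τ)⌋ + s * j) % 5 : ℤ) : ℝ) + 1) / 5 := by
  set M : ℤ := ⌊5 * ((s : ℝ) * τ)⌋ with hM
  have h1 : (M : ℝ) ≤ 5 * ((s : ℝ) * τ) := Int.floor_le _
  have h2 : 5 * ((s : ℝ) * τ) < M + 1 := Int.lt_floor_add_one _
  obtain ⟨l, N, hl, hlN⟩ : ∃ l N : ℤ, (M + s * j) % 5 = l ∧ M + s * j = 5 * N + l :=
    ⟨_, (M + s * j) / 5, rfl, (Int.mul_ediv_add_emod _ _).symm⟩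
  rw [hl]
  have hlNR : (M : ℝ) + s * j = 5 * N + l := by exact_mod_cast hlN
  refine ⟨(5 * ((s : ℝ) * τ) - M + l) / 5, N, ?_, ?_, ?_⟩
  · field_simp
    linear_combination hlNR
  · apply div_le_div_of_nonneg_right _ (by norm_num)
    linarith
  · apply div_lt_div_of_pos_right _ (by norm_num)
    linarith

lemma distInt_shift5 (s : ℤ) (hs : (5 : ℤ) ∣ s) (τ : ℝ) (j : ℤ) :
    distInt ((s : ℝ) * (τ + j / 5)) = distInt ((s : ℝ) * τ) := by
  obtain ⟨m, rfl⟩ := hs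
  have h9 : ((5 * m : ℤ) : ℝ) * (τ + j / 5) = ((5 * m : ℤ) : ℝ) * τ + ((m * j : ℤ) : ℝ) := by
    push_cast
    ring
  rw [h9, distInt_add_int]

lemma dec5 : ∀ b c M M' : ZMod 5, b ≠ 0 → c ≠ 0 → ∃ j : ZMod 5,
    (1 ≤ (M + b * j).val ∧ (M + b * j).val ≤ 3) ∧ (1 ≤ (M' + c * j).val ∧ (M' + c * j).val ≤ 3) := by
  decide

lemma dec5a : ∀ a M : ZMod 5, a ≠ 0 → ∃ j : ZMod 5, (M + a * j).val = 2 := by
  decide

lemma val_eq_emod (x : ℤ) : (((x : ZMod 5).val : ℕ) : ℤ) = x % 5 := by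
  rw [ZMod.val_intCast]; rfl

lemma ne_zero_of_not_dvd (b : ℤ) (hb : ¬ (5 : ℤ) ∣ b) : (b : ZMod 5) ≠ 0 := by
  rwa [Ne, ZMod.intCast_zmod_eq_zero_iff_dvd]

lemma exists_j2 (b c M M' : ℤ) (hb : ¬ (5 : ℤ) ∣ b) (hc : ¬ (5 : ℤ) ∣ c) : ∃ j : ℤ,
    (1 ≤ (M + b * j) % 5 ∧ (M + b * j) % 5 ≤ 3) ∧ (1 ≤ (M' + c * j) % 5 ∧ (M' + c * j) % 5 ≤ 3) := by
  obtain ⟨j, ⟨h1, h2⟩, h3, h4⟩ := dec5 b c M M' (ne_zero_of_not_dvd b hb) (ne_zero_of_not_dvd c hc)
  refine ⟨(j.val : ℤ), ?_⟩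
  have hj : (((j.val : ℕ) : ℤ) : ZMod 5) = j := by simp
  rw [← val_eq_emod, ← val_eq_emod]
  push_cast at hj ⊢
  rw [hj]
  refine ⟨⟨?_, ?_⟩, ?_, ?_⟩
  · exact_mod_cast h1
  · exact_mod_cast h2
  · exact_mod_cast h3
  · exact_mod_cast h4

lemma exists_j1 (a M : ℤ) (ha : ¬ (5 : ℤ) ∣ a) : ∃ j : ℤ, (M + a * j) % 5 = 2 := by
  obtain ⟨j, h1⟩ := dec5a a M (ne_zero_of_not_dvd a ha)
  refine ⟨(j.val : ℤ), ?_⟩
  have hj : (((j.val : ℕ) : ℤ) : ZMod 5) = j := by simp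
  rw [← val_eq_emod]
  push_cast at hj ⊢
  rw [hj]
  exact_mod_cast h1

/-- If the residue is in `[l, u]`, the distance is bounded below. -/
lemma good5 (s : ℤ) (τ : ℝ) (j : ℤ) (c : ℝ)
    (h1 : c ≤ (((⌊5 * ((s : ℝ) * τ)⌋ + s * j) % 5 : ℤ) : ℝ) / 5)
    (h2 : ((((⌊5 * ((s : ℝ) * τ)⌋ + s * j) % 5 : ℤ) : ℝ) + 1) / 5 ≤ 1 - c) :
    c ≤ distInt ((s : ℝ) * (τ + j / 5)) := by
  obtain ⟨x, N, hx, h3, h4⟩ := win5 s τ j
  rw [hx]
  exact distInt_ge_of _ _ _ (by linarith) (by linarith)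

lemma good5_mid (s : ℤ) (τ : ℝ) (j : ℤ) (h : (⌊5 * ((s : ℝ) * τ)⌋ + s * j) % 5 = 2) :
    2 / 5 ≤ distInt ((s : ℝ) * (τ + j / 5)) := by
  apply good5 <;> rw [h] <;> norm_num

lemma good5_wide (s : ℤ) (τ : ℝ) (j : ℤ) (h1 : 1 ≤ (⌊5 * ((s : ℝ) * τ)⌋ + s * j) % 5)
    (h2 : (⌊5 * ((s : ℝ) * τ)⌋ + s * j) % 5 ≤ 3) :
    1 / 5 ≤ distInt ((s : ℝ) * (τ + j / 5)) := by
  have h1R : (1 : ℝ) ≤ (((⌊5 * ((s : ℝ) * τ)⌋ + s * j) % 5 : ℤ) : ℝ) := by exact_mod_cast h1
  have h2R : (((⌊5 * ((s : ℝ) * τ)⌋ + s * j) % 5 : ℤ) : ℝ) ≤ 3 := by exact_mod_cast h2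
  apply good5 <;> linarith

lemma distInt_div (n : ℕ) (hn : 0 < n) (s : ℤ) (c : ℤ) (h : ∀ m : ℤ, c ≤ |s - n * m|) :
    (c : ℝ) / n ≤ distInt ((s : ℝ) / n) := by
  have hnR : (0 : ℝ) < n := by exact_mod_cast hn
  apply le_distInt
  intro m
  have h1 : (s : ℝ) / n - m = ((s - n * m : ℤ) : ℝ) / n := by
    push_cast; field_simp
  rw [h1, abs_div, abs_of_pos hnR]
  apply div_le_div_of_nonneg_right _ hnR.le
  rw [← Int.cast_abs]
  exact_mod_cast h m

lemma coprime5 {a : ℤ} (ha : ¬ (5 : ℤ) ∣ a) : IsCoprime a ((5 : ℕ) : ℤ) := by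
  have h5 : Prime (5 : ℤ) := by
    rw [Int.prime_iff_natAbs_prime]; norm_num
  exact ((Prime.coprime_iff_not_dvd h5).mpr ha).symm

/-- The case `5 ∣ b`, `5 ∤ a`, `5 ∤ c`. -/
lemma caseC (a b c : ℤ) (ha : 0 < a) (hb : 0 < b) (hc : 0 < c) (hac : a ≠ c)
    (h5a : ¬ (5 : ℤ) ∣ a) (h5b : (5 : ℤ) ∣ b) (h5c : ¬ (5 : ℤ) ∣ c) :
    ∃ t : ℝ, 7 / 20 ≤ distInt ((a : ℝ) * t) ∧ 1 / 5 ≤ distInt ((b : ℝ) * t) ∧
      1 / 5 ≤ distInt ((c : ℝ) * t) := by
  obtain ⟨m, rfl⟩ := h5b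
  have hm : m ≠ 0 := by rintro rfl; simp at hb
  have hcase : (∃ ε e : ℤ, (ε = 1 ∨ ε = -1) ∧ ε * c = a + 5 * e ∧ e ≠ 0) ∨
      (∃ ε e : ℤ, (ε = 1 ∨ ε = -1) ∧ ε * c = 2 * a + 5 * e) := by
    have hamod : a % 5 = 1 ∨ a % 5 = 2 ∨ a % 5 = 3 ∨ a % 5 = 4 := by omega
    have hcmod : c % 5 = 1 ∨ c % 5 = 2 ∨ c % 5 = 3 ∨ c % 5 = 4 := by omega
    have : (5 : ℤ) ∣ (c - a) ∨ (5 : ℤ) ∣ (-c - a) ∨ (5 : ℤ) ∣ (c - 2 * a) ∨
        (5 : ℤ) ∣ (-c - 2 * a) := by
      rcases hamod with h | h | h | h <;> rcases hcmod with h' | h' | h' | h' <;> omega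
    rcases this with ⟨e, he⟩ | ⟨e, he⟩ | ⟨e, he⟩ | ⟨e, he⟩
    · exact Or.inl ⟨1, e, Or.inl rfl, by linarith, by rintro rfl; omega⟩
    · exact Or.inl ⟨-1, e, Or.inr rfl, by linarith, by rintro rfl; omega⟩
    · exact Or.inr ⟨1, e, Or.inl rfl, by linarith⟩
    · exact Or.inr ⟨-1, e, Or.inr rfl, by linarith⟩
  rcases hcase with ⟨ε, e, hε, hce, he⟩ | ⟨ε, e, hε, hce⟩
  · obtain ⟨t, h1, h2, h3⟩ := hard 5 (by norm_num) a c m e ε (coprime5 h5a) hε
      (by push_cast; exact hce) he hm (7 / 20) (1 / 5) (9 / 20) (7 / 20) (by norm_num)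
      (by norm_num) (by norm_num) (by norm_num) (by norm_num) (by norm_num) (by norm_num)
      (by norm_num)
    refine ⟨t, h1, ?_, h2⟩
    push_cast at h3 ⊢
    linarith
  · obtain ⟨σ, hσ1, hσ2⟩ := tameZ a m (by omega) hm
    obtain ⟨M, w, hw, hw1⟩ : ∃ (M : ℤ) (w : ℝ), (a : ℝ) * σ = w + M ∧ |w| ≤ 1 / 4 :=
      ⟨round ((a : ℝ) * σ), a * σ - round ((a : ℝ) * σ), by ring, hσ1⟩
    rw [abs_le] at hw1
    have hch : ∀ l : ℤ, ∃ j N : ℤ, M + a * j = l + 5 * N := by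
      intro l
      obtain ⟨u, v, huv⟩ := coprime5 h5a
      push_cast at huv
      refine ⟨u * (l - M), -(v * (l - M)), ?_⟩
      linear_combination (l - M) * huv
    obtain ⟨j2, N2, h2⟩ := hch 2
    obtain ⟨j3, N3, h3⟩ := hch 3
    have h2R : (M : ℝ) + a * j2 = 2 + 5 * N2 := by exact_mod_cast h2
    have h3R : (M : ℝ) + a * j3 = 3 + 5 * N3 := by exact_mod_cast h3
    have hceR : (ε : ℝ) * c = 2 * a + 5 * e := by exact_mod_cast hce
    have hb' : ∀ j : ℤ, 1 / 5 ≤ distInt (((5 * m : ℤ) : ℝ) * (σ / 5 + j / 5)) := by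
      intro j
      have h9 : ((5 * m : ℤ) : ℝ) * (σ / 5 + j / 5) = m * σ + ((m * j : ℤ) : ℝ) := by
        push_cast
        ring
      rw [h9, distInt_add_int]
      linarith
    have ha2 : 7 / 20 ≤ distInt ((a : ℝ) * (σ / 5 + j2 / 5)) := by
      have h9 : (a : ℝ) * (σ / 5 + j2 / 5) = (w + 2) / 5 + N2 := by
        have : (a : ℝ) * (σ / 5 + j2 / 5) = (a * σ + a * j2) / 5 := by ring
        rw [this, hw]
        linear_combination h2R / 5
      rw [h9]
      exact distInt_ge_of _ _ _ (by linarith) (by linarith)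
    have ha3 : 7 / 20 ≤ distInt ((a : ℝ) * (σ / 5 + j3 / 5)) := by
      have h9 : (a : ℝ) * (σ / 5 + j3 / 5) = (w + 3) / 5 + N3 := by
        have : (a : ℝ) * (σ / 5 + j3 / 5) = (a * σ + a * j3) / 5 := by ring
        rw [this, hw]
        linear_combination h3R / 5
      rw [h9]
      exact distInt_ge_of _ _ _ (by linarith) (by linarith)
    by_cases hgood : 1 / 5 ≤ distInt ((c : ℝ) * (σ / 5 + j2 / 5))
    · exact ⟨_, ha2, hb' j2, hgood⟩
    · refine ⟨_, ha3, hb' j3, ?_⟩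
      by_contra hbad
      push Not at hgood hbad
      have h10 : distInt ((c : ℝ) * (σ / 5 + j3 / 5) + -((c : ℝ) * (σ / 5 + j2 / 5))) < 2 / 5 := by
        refine lt_of_le_of_lt (distInt_add_le _ _) ?_
        rw [distInt_neg]
        linarith
      have h11 : distInt ((c : ℝ) * (σ / 5 + j3 / 5) + -((c : ℝ) * (σ / 5 + j2 / 5))) =
          distInt (2 / 5 + ((2 * (N3 - N2) + e * (j3 - j2) : ℤ) : ℝ)) := by
        have h12 : 2 / 5 + ((2 * (N3 - N2) + e * (j3 - j2) : ℤ) : ℝ) =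
            (ε : ℝ) * ((c : ℝ) * (σ / 5 + j3 / 5) + -((c : ℝ) * (σ / 5 + j2 / 5))) := by
          have h13 : (ε : ℝ) * ((c : ℝ) * (σ / 5 + j3 / 5) + -((c : ℝ) * (σ / 5 + j2 / 5))) =
              ((ε : ℝ) * c) * ((j3 - j2) / 5) := by ring
          rw [h13, hceR]
          push_cast
          linear_combination (2 / 5 : ℝ) * h2R - (2 / 5 : ℝ) * h3R
        rw [h12]
        rcases hε with rfl | rfl
        · simp
        · rw [Int.cast_neg, Int.cast_one, neg_one_mul, distInt_neg]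
      rw [h11] at h10
      have h14 := distInt_ge_of (2 / 5) (2 * (N3 - N2) + e * (j3 - j2)) (2 / 5) le_rfl (by norm_num)
      linarith

lemma good_main (a b c : ℕ) (ha : 0 < a) (hb : 0 < b) (hc : 0 < c) (hab : a ≠ b) (hac : a ≠ c)
    (hbc : b ≠ c) (hg : Nat.gcd a (Nat.gcd b c) = 1) : Good (7 / 20) (1 / 5) (1 / 5) a b c := by
  have haR : (0 : ℝ) < a := by exact_mod_cast ha
  have cast_a : ((a : ℤ) : ℝ) = (a : ℝ) := by push_cast; rfl
  have cast_b : ((b : ℤ) : ℝ) = (b : ℝ) := by push_cast; rfl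
  have cast_c : ((c : ℤ) : ℝ) = (c : ℝ) := by push_cast; rfl
  unfold Good
  rw [← cast_a, ← cast_b, ← cast_c]
  by_cases h5a : (5 : ℤ) ∣ a
  · by_cases h5b : (5 : ℤ) ∣ b
    · by_cases h5c : (5 : ℤ) ∣ c
      · exfalso
        have h1 : 5 ∣ a := by exact_mod_cast h5a
        have h2 : 5 ∣ b := by exact_mod_cast h5b
        have h3 : 5 ∣ c := by exact_mod_cast h5c
        have h4 := Nat.dvd_gcd h1 (Nat.dvd_gcd h2 h3)
        rw [hg] at h4
        omega
      · -- a, b divisible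
        obtain ⟨τ, h1, h2⟩ := two_runners (1 / 8) (by norm_num) (by norm_num) a b ha hb hab
        obtain ⟨j, hj⟩ := exists_j1 c ⌊5 * (((c : ℤ) : ℝ) * τ)⌋ h5c
        refine ⟨τ + j / 5, ?_, ?_, ?_⟩
        · rw [distInt_shift5 _ h5a]
          rw [cast_a]; linarith
        · rw [distInt_shift5 _ h5b]
          rw [cast_b]; linarith
        · have := good5_mid c τ j hj
          linarith
    · by_cases h5c : (5 : ℤ) ∣ c
      · obtain ⟨τ, h1, h2⟩ := two_runners (1 / 8) (by norm_num) (by norm_num) a c ha hc hac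
        obtain ⟨j, hj⟩ := exists_j1 b ⌊5 * (((b : ℤ) : ℝ) * τ)⌋ h5b
        refine ⟨τ + j / 5, ?_, ?_, ?_⟩
        · rw [distInt_shift5 _ h5a]
          rw [cast_a]; linarith
        · have := good5_mid b τ j hj
          linarith
        · rw [distInt_shift5 _ h5c]
          rw [cast_c]; linarith
      · -- only a divisible
        set τ : ℝ := 1 / (2 * a) with hτ
        obtain ⟨j, ⟨hj1, hj2⟩, hj3, hj4⟩ := exists_j2 b c ⌊5 * (((b : ℤ) : ℝ) * τ)⌋
          ⌊5 * (((c : ℤ) : ℝ) * τ)⌋ h5b h5c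
        refine ⟨τ + j / 5, ?_, good5_wide b τ j hj1 hj2, good5_wide c τ j hj3 hj4⟩
        rw [distInt_shift5 _ h5a, cast_a]
        have : (a : ℝ) * τ = 1 / 2 := by rw [hτ]; field_simp
        rw [this, distInt_of_mem (by norm_num) le_rfl]
        norm_num
  · by_cases h5b : (5 : ℤ) ∣ b
    · by_cases h5c : (5 : ℤ) ∣ c
      · -- b, c divisible
        obtain ⟨τ, h1, h2⟩ := two_runners (1 / 8) (by norm_num) (by norm_num) b c hb hc hbc
        obtain ⟨j, hj⟩ := exists_j1 a ⌊5 * (((a : ℤ) : ℝ) * τ)⌋ h5a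
        refine ⟨τ + j / 5, ?_, ?_, ?_⟩
        · have := good5_mid a τ j hj
          linarith
        · rw [distInt_shift5 _ h5b]
          rw [cast_b]; linarith
        · rw [distInt_shift5 _ h5c]
          rw [cast_c]; linarith
      · exact caseC a b c (by exact_mod_cast ha) (by exact_mod_cast hb) (by exact_mod_cast hc)
          (by exact_mod_cast hac) h5a h5b h5c
    · by_cases h5c : (5 : ℤ) ∣ c
      · obtain ⟨t, h1, h2, h3⟩ := caseC a c b (by exact_mod_cast ha) (by exact_mod_cast hc)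
          (by exact_mod_cast hb) (by exact_mod_cast hab) h5a h5c h5b
        exact ⟨t, h1, h3, h2⟩
      · -- none divisible
        obtain ⟨j, hj⟩ := exists_j1 a 0 h5a
        have h5 : Prime (5 : ℤ) := by
          rw [Int.prime_iff_natAbs_prime]; norm_num
        have hj0 : ¬ (5 : ℤ) ∣ j := by
          rintro ⟨i, rfl⟩
          rw [zero_add, show (a : ℤ) * (5 * i) = 5 * (a * i) by ring, Int.mul_emod_right] at hj
          omega
        have hbj : ¬ (5 : ℤ) ∣ b * j := fun h => (h5.dvd_or_dvd h).elim h5b hj0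
        have hcj : ¬ (5 : ℤ) ∣ c * j := fun h => (h5.dvd_or_dvd h).elim h5c hj0
        refine ⟨(j : ℝ) / 5, ?_, ?_, ?_⟩
        · have h1 := distInt_div 5 (by norm_num) (a * j) 2 (by
            intro m
            push_cast
            rcases abs_cases ((a : ℤ) * j - 5 * m) with ⟨h, _⟩ | ⟨h, _⟩ <;> rw [h] <;> omega)
          push_cast at h1 ⊢
          rw [mul_div_assoc] at h1
          linarith
        · have h1 := distInt_div 5 (by norm_num) (b * j) 1 (by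
            intro m
            push_cast
            rcases abs_cases ((b : ℤ) * j - 5 * m) with ⟨h, _⟩ | ⟨h, _⟩ <;> rw [h] <;> omega)
          push_cast at h1 ⊢
          rw [mul_div_assoc] at h1
          linarith
        · have h1 := distInt_div 5 (by norm_num) (c * j) 1 (by
            intro m
            push_cast
            rcases abs_cases ((c : ℤ) * j - 5 * m) with ⟨h, _⟩ | ⟨h, _⟩ <;> rw [h] <;> omega)
          push_cast at h1 ⊢
          rw [mul_div_assoc] at h1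
          linarith

/-! ### Four runners: `(1/4, 1/4, 1/4)` -/

lemma good_swap12 {d : ℝ} {a b c : ℕ} (h : Good d d d a b c) : Good d d d b a c := by
  obtain ⟨t, h1, h2, h3⟩ := h
  exact ⟨t, h2, h1, h3⟩

lemma good_swap23 {d : ℝ} {a b c : ℕ} (h : Good d d d a b c) : Good d d d a c b := by
  obtain ⟨t, h1, h2, h3⟩ := h
  exact ⟨t, h1, h3, h2⟩

lemma distInt_odd_half (a : ℕ) (ha : a % 2 = 1) : 1 / 2 ≤ distInt ((a : ℝ) * (1 / 2)) := by
  have h1 := distInt_div 2 (by norm_num) (a : ℤ) 1 (by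
    intro m
    push_cast
    rcases abs_cases ((a : ℤ) - 2 * m) with ⟨h, _⟩ | ⟨h, _⟩ <;> rw [h] <;> omega)
  push_cast at h1
  rw [mul_one_div]
  exact h1

lemma distInt_quarter (a : ℕ) (ha : a % 4 ≠ 0) : 1 / 4 ≤ distInt ((a : ℝ) * (1 / 4)) := by
  have h1 := distInt_div 4 (by norm_num) (a : ℤ) 1 (by
    intro m
    push_cast
    rcases abs_cases ((a : ℤ) - 4 * m) with ⟨h, _⟩ | ⟨h, _⟩ <;> rw [h] <;> omega)
  push_cast at h1
  rw [mul_one_div]
  exact h1

lemma twoEven (a b c : ℕ) (hb : 0 < b) (hc : 0 < c) (hbc : b ≠ c) (ha2 : a % 2 = 1)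
    (hb2 : b % 2 = 0) (hc2 : c % 2 = 0) : Good (1 / 4) (1 / 4) (1 / 4) a b c := by
  obtain ⟨τ, h1, h2⟩ := two_runners (1 / 8) (by norm_num) (by norm_num) b c hb hc hbc
  by_cases h : 1 / 4 ≤ distInt ((a : ℝ) * τ)
  · exact ⟨τ, h, by linarith, by linarith⟩
  · push Not at h
    have hev : ∀ s : ℕ, s % 2 = 0 → distInt ((s : ℝ) * (τ + 1 / 2)) = distInt ((s : ℝ) * τ) := by
      intro s hs
      obtain ⟨m, rfl⟩ : ∃ m, s = 2 * m := ⟨s / 2, by omega⟩
      have h9 : ((2 * m : ℕ) : ℝ) * (τ + 1 / 2) = ((2 * m : ℕ) : ℝ) * τ + ((m : ℤ) : ℝ) := by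
        push_cast
        ring
      rw [h9, distInt_add_int]
    refine ⟨τ + 1 / 2, ?_, ?_, ?_⟩
    · have h3 := distInt_odd_half a ha2
      have h4 := distInt_add_le ((a : ℝ) * (τ + 1 / 2)) (-((a : ℝ) * τ))
      rw [distInt_neg] at h4
      have h5 : (a : ℝ) * (τ + 1 / 2) + -((a : ℝ) * τ) = (a : ℝ) * (1 / 2) := by ring
      rw [h5] at h4
      linarith
    · rw [hev b hb2]; linarith
    · rw [hev c hc2]; linarith

lemma oneEven (a b c : ℕ) (ha : 0 < a) (hb : 0 < b) (hc : 0 < c) (hab : a ≠ b) (ha2 : a % 2 = 1)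
    (hb2 : b % 2 = 1) (hc2 : c % 2 = 0) : Good (1 / 4) (1 / 4) (1 / 4) a b c := by
  by_cases hc4 : c % 4 = 0
  · obtain ⟨m, rfl⟩ : ∃ m, c = 4 * m := ⟨c / 4, by omega⟩
    have hcase : ∃ ε e : ℤ, (ε = 1 ∨ ε = -1) ∧ ε * b = a + 4 * e ∧ e ≠ 0 := by
      have h1 : (4 : ℤ) ∣ ((b : ℤ) - a) ∨ (4 : ℤ) ∣ (-(b : ℤ) - a) := by omega
      rcases h1 with ⟨e, he⟩ | ⟨e, he⟩
      · exact ⟨1, e, Or.inl rfl, by linarith, by rintro rfl; omega⟩
      · exact ⟨-1, e, Or.inr rfl, by linarith, by rintro rfl; omega⟩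
    obtain ⟨ε, e, hε, hbe, he⟩ := hcase
    have hco : IsCoprime (a : ℤ) ((4 : ℕ) : ℤ) := by
      rw [Nat.isCoprime_iff_coprime]
      have h2 : Nat.Coprime a 2 :=
        ((Nat.Prime.coprime_iff_not_dvd Nat.prime_two).mpr (by omega)).symm
      exact Nat.Coprime.mul_right h2 h2
    obtain ⟨t, h1, h2, h3⟩ := hard 4 (by norm_num) a b m e ε hco hε
      (by push_cast; exact hbe) he (by omega) (1 / 4) (1 / 4) (1 / 2) (1 / 4) (by norm_num)
      (by norm_num) (by norm_num) (by norm_num) (by norm_num) (by norm_num) (by norm_num)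
      (by norm_num)
    refine ⟨t, by push_cast at h1; exact h1, by push_cast at h2; exact h2, ?_⟩
    push_cast at h3 ⊢
    exact h3
  · exact ⟨1 / 4, distInt_quarter a (by omega), distInt_quarter b (by omega),
      distInt_quarter c hc4⟩

lemma diag_main (a b c : ℕ) (ha : 0 < a) (hb : 0 < b) (hc : 0 < c) (hab : a ≠ b) (hac : a ≠ c)
    (hbc : b ≠ c) (hg : Nat.gcd a (Nat.gcd b c) = 1) : Good (1 / 4) (1 / 4) (1 / 4) a b c := by
  rcases Nat.mod_two_eq_zero_or_one a with ha2 | ha2 <;>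
    rcases Nat.mod_two_eq_zero_or_one b with hb2 | hb2 <;>
    rcases Nat.mod_two_eq_zero_or_one c with hc2 | hc2
  · exfalso
    have h4 := Nat.dvd_gcd (Nat.dvd_of_mod_eq_zero ha2)
      (Nat.dvd_gcd (Nat.dvd_of_mod_eq_zero hb2) (Nat.dvd_of_mod_eq_zero hc2))
    rw [hg] at h4
    omega
  · exact good_swap23 (good_swap12 (twoEven c a b ha hb hab hc2 ha2 hb2))
  · exact good_swap12 (twoEven b a c ha hc hac hb2 ha2 hc2)
  · -- a even, b c odd
    exact good_swap12 (good_swap23 (oneEven b c a hb hc ha hbc hb2 hc2 ha2))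
  · exact twoEven a b c hb hc hbc ha2 hb2 hc2
  · exact good_swap23 (oneEven a c b ha hc hb hac ha2 hc2 hb2)
  · exact oneEven a b c ha hb hc hab ha2 hb2 hc2
  · have h1 := distInt_odd_half a ha2
    have h2 := distInt_odd_half b hb2
    have h3 := distInt_odd_half c hc2
    exact ⟨1 / 2, by linarith, by linarith, by linarith⟩

/-! ### A point with a large first coordinate, by a measure count -/

lemma volume_bad (s : ℕ) (hs : 0 < s) (ε : ℝ) (hε : ε ≤ 1 / 2) :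
    MeasureTheory.volume {x : UnitAddCircle | ‖(s : ℤ) • x‖ ≤ ε} = ENNReal.ofReal (2 * ε) := by
  have h1 : {x : UnitAddCircle | ‖(s : ℤ) • x‖ ≤ ε} =
      (fun x : UnitAddCircle => (s : ℤ) • x) ⁻¹' Metric.closedBall 0 ε := by
    ext x
    simp
  have hs0 : (s : ℤ) ≠ 0 := by exact_mod_cast hs.ne'
  have hmp := MeasureTheory.Measure.measurePreserving_zsmul
    (MeasureTheory.volume : MeasureTheory.Measure UnitAddCircle) hs0
  rw [h1, hmp.measure_preimage
      Metric.isClosed_closedBall.measurableSet.nullMeasurableSet, AddCircle.volume_closedBall]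
  congr 1
  rw [min_eq_right]
  linarith

lemma norm_smul_coe (s : ℕ) (t : ℝ) :
    ‖(s : ℤ) • ((t : ℝ) : UnitAddCircle)‖ = distInt ((s : ℝ) * t) := by
  rw [distInt_eq_norm, ← AddCircle.coe_zsmul, zsmul_eq_mul]
  push_cast
  rfl

lemma union_good (a b c : ℕ) (ha : 0 < a) (hb : 0 < b) (hc : 0 < c) :
    Good (9 / 20) (1 / 50) (1 / 50) a b c := by
  by_contra hcon
  have hcover : (Set.univ : Set UnitAddCircle) ⊆ {x | ‖(a : ℤ) • x‖ ≤ 9 / 20} ∪
      ({x | ‖(b : ℤ) • x‖ ≤ 1 / 50} ∪ {x | ‖(c : ℤ) • x‖ ≤ 1 / 50}) := by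
    intro x _
    by_contra hx
    simp only [Set.mem_union, Set.mem_setOf_eq, not_or, not_le] at hx
    obtain ⟨t, rfl⟩ := QuotientAddGroup.mk_surjective x
    apply hcon
    refine ⟨t, ?_, ?_, ?_⟩
    · rw [← norm_smul_coe]; exact hx.1.le
    · rw [← norm_smul_coe]; exact hx.2.1.le
    · rw [← norm_smul_coe]; exact hx.2.2.le
  have h1 := MeasureTheory.measure_mono (μ := MeasureTheory.volume) hcover
  have h2 := h1.trans ((MeasureTheory.measure_union_le _ _).trans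
    (add_le_add le_rfl (MeasureTheory.measure_union_le _ _)))
  rw [UnitAddCircle.measure_univ, volume_bad a ha _ (by norm_num), volume_bad b hb _ (by norm_num),
    volume_bad c hc _ (by norm_num), ← ENNReal.ofReal_add (by norm_num) (by norm_num),
    ← ENNReal.ofReal_add (by norm_num) (by norm_num)] at h2
  have h3 : ENNReal.ofReal 1 ≤ ENNReal.ofReal (2 * (9 / 20) + (2 * (1 / 50) + 2 * (1 / 50))) := by
    rw [ENNReal.ofReal_one]; exact h2
  rw [ENNReal.ofReal_le_ofReal_iff (by norm_num)] at h3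
  norm_num at h3

lemma mem_MLPS3 (x y z : ℝ) (hx : 0 < x ∧ x ≤ 1 / 2) (hy : 0 < y ∧ y ≤ 1 / 2)
    (hz : 0 < z ∧ z ≤ 1 / 2)
    (h : ∀ a b c : ℕ, 0 < a → 0 < b → 0 < c → a ≠ b → a ≠ c → b ≠ c → Good x y z a b c) :
    (![x, y, z] : Fin 3 → ℝ) ∈ MLPS 3 := by
  refine ⟨?_, ?_⟩
  · intro i
    fin_cases i
    · exact hx
    · exact hy
    · exact hz
  · intro s hs hinj
    obtain ⟨t, h1, h2, h3⟩ := h (s 0) (s 1) (s 2) (hs 0) (hs 1) (hs 2)
      (fun h => by have := hinj h; revert this; decide)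
      (fun h => by have := hinj h; revert this; decide)
      (fun h => by have := hinj h; revert this; decide)
    refine ⟨t, ?_⟩
    intro i
    fin_cases i
    · exact h1
    · exact h2
    · exact h3

/-! ### Maximal points -/

lemma isClosed_feasible {k : ℕ} (s : Fin k → ℕ) :
    IsClosed {e : Fin k → ℝ | ∃ t : ℝ, ∀ i, e i ≤ distInt ((s i : ℝ) * t)} := by
  have h1 : IsClosed {p : UnitAddCircle × (Fin k → ℝ) | ∀ i, p.2 i ≤ ‖(s i : ℤ) • p.1‖} := by
    rw [Set.setOf_forall]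
    apply isClosed_iInter
    intro i
    apply isClosed_le
    · exact (continuous_apply i).comp continuous_snd
    · exact continuous_norm.comp ((continuous_zsmul (s i : ℤ)).comp continuous_fst)
  have h2 := isClosedMap_snd_of_compactSpace _ h1
  convert h2 using 1
  ext e
  constructor
  · rintro ⟨t, ht⟩
    refine ⟨((t : UnitAddCircle), e), ?_, rfl⟩
    intro i
    simp only
    rw [norm_smul_coe]
    exact ht i
  · rintro ⟨⟨x, e'⟩, hx, rfl⟩
    obtain ⟨t, rfl⟩ := QuotientAddGroup.mk_surjective x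
    refine ⟨t, ?_⟩
    intro i
    have := hx i
    simp only at this
    rw [← norm_smul_coe]
    exact this

lemma isClosed_MLRC (k : ℕ) : IsClosed {e : Fin k → ℝ | MLRC e} := by
  unfold MLRC
  rw [Set.setOf_forall]
  apply isClosed_iInter
  intro s
  rw [Set.setOf_forall]
  apply isClosed_iInter
  intro _
  rw [Set.setOf_forall]
  apply isClosed_iInter
  intro _
  exact isClosed_feasible s

lemma exists_upper {k : ℕ} (d : Fin k → ℝ) (hd : d ∈ MLPS k) :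
    ∃ P ∈ upperBoundary k, ∀ i, d i ≤ P i := by
  set K : Set (Fin k → ℝ) := Set.Icc d (fun _ => 1 / 2) ∩ {e | MLRC e} with hK
  have hcomp : IsCompact K := isCompact_Icc.inter_right (isClosed_MLRC k)
  have hne : K.Nonempty := ⟨d, ⟨le_rfl, fun i => (hd.1 i).2⟩, hd.2⟩
  have hcont : ContinuousOn (fun e : Fin k → ℝ => ∑ i, e i) K :=
    (continuous_finset_sum _ fun i _ => continuous_apply i).continuousOn
  obtain ⟨P, hP, hmax⟩ := hcomp.exists_isMaxOn hne hcont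
  refine ⟨P, ⟨⟨fun i => ⟨lt_of_lt_of_le (hd.1 i).1 (hP.1.1 i), hP.1.2 i⟩, hP.2⟩, ?_⟩,
    fun i => hP.1.1 i⟩
  intro e he hPe
  have heK : e ∈ K := ⟨⟨fun i => (hP.1.1 i).trans (hPe i), fun i => (he.1 i).2⟩, he.2⟩
  have h1 : ∑ i, e i ≤ ∑ i, P i := hmax heK
  have h2 : ∑ i, P i ≤ ∑ i, e i := Finset.sum_le_sum fun i _ => hPe i
  have h3 : ∑ i, P i = ∑ i, e i := le_antisymm h2 h1
  rw [Finset.sum_eq_sum_iff_of_le (fun i _ => hPe i)] at h3
  funext i
  exact (h3 i (Finset.mem_univ i)).symm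

lemma perm_MLPS {k : ℕ} (σ : Equiv.Perm (Fin k)) (d : Fin k → ℝ) (hd : d ∈ MLPS k) :
    d ∘ σ ∈ MLPS k := by
  refine ⟨fun i => hd.1 (σ i), ?_⟩
  intro s hs hinj
  obtain ⟨t, ht⟩ := hd.2 (s ∘ σ.symm) (fun i => hs _) (hinj.comp σ.symm.injective)
  refine ⟨t, fun i => ?_⟩
  have := ht (σ i)
  simpa using this

lemma perm_upper {k : ℕ} (σ : Equiv.Perm (Fin k)) (d : Fin k → ℝ) (hd : d ∈ upperBoundary k) :
    d ∘ σ ∈ upperBoundary k := by
  refine ⟨perm_MLPS σ d hd.1, ?_⟩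
  intro e he hde
  have h1 := hd.2 (e ∘ σ.symm) (perm_MLPS σ.symm e he) (fun i => by
    have := hde (σ.symm i)
    simpa using this)
  funext i
  have h2 := congrFun h1 (σ i)
  simpa using h2

lemma diag3_apply (i : Fin 3) : diag 3 i = 1 / 4 := by
  unfold diag
  norm_num

lemma centroid_mem (P : Fin 3 → ℝ) (hP : P ∈ upperBoundary 3) (i₀ : Fin 3) (hi : P i₀ ≠ 1 / 4) :
    (fun _ => (∑ i, P i) / 3 : Fin 3 → ℝ) ∈ convexHull ℝ (upperBoundary 3 \ {diag 3}) := by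
  have h1 : (fun _ => (∑ i, P i) / 3 : Fin 3 → ℝ) =
      ∑ j : Fin 3, (1 / 3 : ℝ) • (P ∘ (Equiv.addRight j)) := by
    funext i
    rw [Finset.sum_apply]
    simp only [Pi.smul_apply, Function.comp_apply, Equiv.coe_addRight, smul_eq_mul]
    rw [← Finset.mul_sum]
    have h2 : ∑ j : Fin 3, P (i + j) = ∑ j, P j :=
      Fintype.sum_equiv (Equiv.addLeft i) _ _ (fun j => rfl)
    rw [h2]
    ring
  rw [h1]
  apply (convex_convexHull ℝ (upperBoundary 3 \ {diag 3})).sum_mem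
  · intro j _
    norm_num
  · simp
  · intro j _
    apply subset_convexHull
    refine ⟨perm_upper _ P hP, ?_⟩
    intro h
    rw [Set.mem_singleton_iff] at h
    have h3 := congrFun h (i₀ - j)
    rw [diag3_apply] at h3
    simp only [Function.comp_apply, Equiv.coe_addRight, sub_add_cancel] at h3
    exact hi h3

lemma distInt_two_mul (t : ℝ) : distInt (2 * t) ≤ 1 - 2 * distInt t := by
  have h1 : distInt t = |t - round t| := rfl
  have h2 : |t - round t| ≤ 1 / 2 := abs_sub_round t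
  rw [h1]
  rcases abs_cases (t - round t) with ⟨h, h3⟩ | ⟨h, h3⟩
  · have h4 := distInt_le (2 * t) (2 * round t + 1)
    push_cast at h4
    rw [h] at h2 ⊢
    rw [abs_of_nonpos (by linarith)] at h4
    linarith
  · have h4 := distInt_le (2 * t) (2 * round t - 1)
    push_cast at h4
    rw [h] at h2 ⊢
    rw [abs_of_nonneg (by linarith)] at h4
    linarith

lemma low_sum (Q : Fin 3 → ℝ) (hQ : Q ∈ MLPS 3) (h0 : 9 / 20 ≤ Q 0) : ∑ i, Q i < 3 / 4 := by
  have h1 : Q 1 ≤ 1 - 2 * Q 0 := by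
    obtain ⟨t, ht⟩ := hQ.2 ![1, 2, 3] (by decide) (by decide)
    have ht0 := ht 0
    have ht1 := ht 1
    simp at ht0 ht1
    have := distInt_two_mul t
    linarith
  have h2 : Q 2 ≤ 1 - 2 * Q 0 := by
    obtain ⟨t, ht⟩ := hQ.2 ![1, 3, 2] (by decide) (by decide)
    have ht0 := ht 0
    have ht1 := ht 2
    simp at ht0 ht1
    have := distInt_two_mul t
    linarith
  rw [Fin.sum_univ_three]
  linarith

/-- For `k = 3` the point `D_3` lies in `MLPS_3` and is a convex combination of upper-boundary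
points of `MLPS_3` different from `D_3`. -/
theorem result :
    diag 3 ∈ MLPS 3 ∧ diag 3 ∈ convexHull ℝ (upperBoundary 3 \ {diag 3}) := by
  constructor
  · have h1 := mem_MLPS3 (1 / 4) (1 / 4) (1 / 4) (by norm_num) (by norm_num) (by norm_num)
      (good_of_coprime _ _ _ diag_main)
    have h2 : diag 3 = ![1 / 4, 1 / 4, 1 / 4] := by
      funext i
      rw [diag3_apply]
      fin_cases i <;> rfl
    rw [h2]
    exact h1
  · obtain ⟨P, hP, hPd⟩ := exists_upper _ (mem_MLPS3 (7 / 20) (1 / 5) (1 / 5) (by norm_num)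
      (by norm_num) (by norm_num) (good_of_coprime _ _ _ good_main))
    obtain ⟨Q, hQ, hQd⟩ := exists_upper _ (mem_MLPS3 (9 / 20) (1 / 50) (1 / 50) (by norm_num)
      (by norm_num) (by norm_num) (fun a b c ha hb hc _ _ _ => union_good a b c ha hb hc))
    have hP0 : 7 / 20 ≤ P 0 := hPd 0
    have hP1 : 1 / 5 ≤ P 1 := hPd 1
    have hP2 : 1 / 5 ≤ P 2 := hPd 2
    have hQ0 : 9 / 20 ≤ Q 0 := hQd 0
    have hQs := low_sum Q hQ.1 hQ0
    have hPs : 3 / 4 ≤ ∑ i, P i := by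
      rw [Fin.sum_univ_three]
      linarith
    have hPm := centroid_mem P hP 0 (by linarith [hP0] |> fun (h : (1 : ℝ) / 4 < P 0) => h.ne')
    have hQm := centroid_mem Q hQ 0 (by linarith [hQ0] |> fun (h : (1 : ℝ) / 4 < Q 0) => h.ne')
    set p := ∑ i, P i with hp
    set q := ∑ i, Q i with hq
    have hpq : 0 < p - q := by linarith
    have key := (convex_convexHull ℝ (upperBoundary 3 \ {diag 3})) hPm hQm
      (show 0 ≤ (3 / 4 - q) / (p - q) from div_nonneg (by linarith) hpq.le)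
      (show 0 ≤ (p - 3 / 4) / (p - q) from div_nonneg (by linarith) hpq.le)
      (by field_simp; ring)
    have heq : diag 3 = ((3 / 4 - q) / (p - q)) • (fun _ => p / 3 : Fin 3 → ℝ) +
        ((p - 3 / 4) / (p - q)) • (fun _ => q / 3 : Fin 3 → ℝ) := by
      funext i
      rw [diag3_apply]
      simp only [Pi.add_apply, Pi.smul_apply, smul_eq_mul]
      field_simp
      ring
    exact heq.symm ▸ key

end Pool.Agent.Results.MP_b0d7fb_nt.DiagonalHull
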